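import Pool.Agent.helper43.DHB.SpecB

/-! # d2:bNUM: numbers of the union bound -/

set_option autoImplicit false

open Filter Topology MeasureTheory
open scoped commutatorElement

namespace Pool.Agent.helper90.DH

open Pool.Agent.helper64.D2

theorem bNUM_sq (n : ℕ) : n ^ 2 ≤ 2 * 2 ^ n := by
  induction n with
  | zero => norm_num
  | succ n ih =>
    rcases Nat.lt_or_ge n 3 with h | h
    · interval_cases n <;> norm_num
    · rw [pow_succ 2 n]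
      nlinarith

/-- the binary logarithm is small. -/
theorem bNUM_log (s : ℕ) (c : ℝ) (hc : 0 < c) (hs : 1 ≤ s) (h : 10 * (1 / c) ^ 2 ≤ s) :
    ((Nat.log 2 (s + 1) + 1 : ℕ) : ℝ) ≤ s * c := by
  set l := Nat.log 2 (s + 1) with hl
  have h1 : 2 ^ l ≤ s + 1 := Nat.pow_log_le_self 2 (by omega)
  have h2 : l ^ 2 ≤ 2 * (s + 1) := le_trans (bNUM_sq l) (by omega)
  have h2' : (l : ℝ) ^ 2 ≤ 2 * (s + 1) := by exact_mod_cast h2
  have hs' : (1 : ℝ) ≤ s := by exact_mod_cast hs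
  have h3 : ((l : ℝ) + 1) ^ 2 ≤ 10 * s := by nlinarith [sq_nonneg ((l : ℝ) - 1)]
  have h4 : 10 * (s : ℝ) ≤ (s * c) ^ 2 := by
    have h5 : 10 ≤ s * c ^ 2 := by
      have h6 : 10 * (1 / c) ^ 2 * c ^ 2 ≤ s * c ^ 2 := mul_le_mul_of_nonneg_right h (by positivity)
      have h7 : 10 * (1 / c) ^ 2 * c ^ 2 = 10 := by
        field_simp
      linarith
    nlinarith
  push_cast
  exact le_of_sq_le_sq (le_trans h3 h4) (by positivity)
where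
  le_of_sq_le_sq {a b : ℝ} (h : a ^ 2 ≤ b ^ 2) (hb : 0 ≤ b) : a ≤ b := abs_le_of_sq_le_sq' h hb |>.2

theorem bNUM_base (W σ s : ℕ) (hs : s = σ + σ / 4) (hW : W + 6 ≤ σ / 4) :
    40 / (2 ^ s * ((1 : ℝ) / 2 ^ (σ + W))) + 1 / ((2 ^ s : ℕ) : ℝ) ≤ (1 / 2) ^ (σ / 4 - (W + 6)) := by
  set u := σ / 4 with hu
  obtain ⟨q, hq⟩ := Nat.exists_eq_add_of_le hW
  have e1 : (2 : ℝ) ^ s * ((1 : ℝ) / 2 ^ (σ + W)) = 2 ^ q * 64 := by
    rw [hs, hq]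
    have : (2 : ℝ) ^ (σ + (W + 6 + q)) = 2 ^ (σ + W) * (2 ^ q * 64) := by
      rw [show σ + (W + 6 + q) = (σ + W) + q + 6 by ring, pow_add, pow_add]
      norm_num
      ring
    rw [this]
    field_simp
  have e2 : (1 : ℝ) / ((2 ^ s : ℕ) : ℝ) ≤ 1 / (2 ^ q * 64) := by
    push_cast
    refine one_div_le_one_div_of_le (by positivity) ?_
    rw [show (64 : ℝ) = 2 ^ 6 by norm_num, ← pow_add]
    exact pow_le_pow_right₀ (by norm_num) (by omega)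
  rw [e1, show u - (W + 6) = q by omega, one_div_pow]
  have h3 : (0 : ℝ) < 2 ^ q := by positivity
  calc 40 / (2 ^ q * 64) + 1 / ((2 ^ s : ℕ) : ℝ) ≤ 40 / (2 ^ q * 64) + 1 / (2 ^ q * 64) := by linarith
    _ = 41 / 64 * (1 / 2 ^ q) := by field_simp; norm_num
    _ ≤ 1 / 2 ^ q := by
        have : (0 : ℝ) < 1 / 2 ^ q := by positivity
        linarith

theorem bNUM_core (th : ℝ) (W ρ σ s k w : ℕ) (hth : 0 < th) (hs : s = σ + σ / 4) (hk : 1 ≤ k)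
    (hks : k * ρ ^ 3 ≤ s) (hw : σ / 4 ≤ 2 * w + 2) (h1 : 2016 ≤ th * ρ ^ 4) (h2 : 10 * (1 / (th / 252)) ^ 2 ≤ (s : ℝ))
    (h3 : 30 * W + 300 ≤ s) (hρ : 1 ≤ ρ) :
    40 / (2 ^ s * ((1 : ℝ) / 2 ^ (σ + W))) + 1 / ((2 ^ s : ℕ) : ℝ) ≤ 1 ∧
    (2 ^ (s + 1) + 1 : ℝ) ^ k * ((k : ℝ) + 1) ^ (ρ ^ 4 * k) *
      (40 / (2 ^ s * ((1 : ℝ) / 2 ^ (σ + W))) + 1 / ((2 ^ s : ℕ) : ℝ)) ^
        ⌈th * (ρ ^ 4 : ℕ) * max 1 ((w : ℝ) / (2 * ρ ^ 3))⌉₊ ≤ (1 / 2) ^ (k + 4) := by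
  have hW : W + 6 ≤ σ / 4 := by omega
  have hb := bNUM_base W σ s hs hW
  set b : ℝ := 40 / (2 ^ s * ((1 : ℝ) / 2 ^ (σ + W))) + 1 / ((2 ^ s : ℕ) : ℝ) with hbdef
  have hb0 : 0 ≤ b := by positivity
  set q : ℕ := σ / 4 - (W + 6) with hq
  set M : ℕ := ⌈th * (ρ ^ 4 : ℕ) * max 1 ((w : ℝ) / (2 * ρ ^ 3))⌉₊ with hM
  set l : ℕ := Nat.log 2 (s + 1) + 1 with hl
  have hs1 : 1 ≤ s := by omega
  have hρ' : (1 : ℝ) ≤ ρ := by exact_mod_cast hρ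
  have hρ3 : (0 : ℝ) < (ρ : ℝ) ^ 3 := by positivity
  have hks' : (k : ℝ) * ρ ^ 3 ≤ s := by exact_mod_cast hks
  have hk' : (1 : ℝ) ≤ k := by exact_mod_cast hk
  have hlog : (l : ℝ) ≤ s * (th / 252) := bNUM_log s (th / 252) (by positivity) hs1 h2
  refine ⟨le_trans hb (pow_le_one₀ (by norm_num) (by norm_num)), ?_⟩
  -- the three factors
  have f1 : (2 ^ (s + 1) + 1 : ℝ) ^ k ≤ 2 ^ ((s + 2) * k) := by
    rw [pow_mul]
    refine pow_le_pow_left₀ (by positivity) ?_ k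
    rw [pow_succ 2 (s + 1)]
    have : (1 : ℝ) ≤ 2 ^ (s + 1) := one_le_pow₀ (by norm_num)
    linarith
  have hkl : (k : ℝ) + 1 ≤ 2 ^ l := by
    have hks2 : k ≤ s := by
      refine le_trans ?_ hks
      have : 1 ≤ ρ ^ 3 := Nat.one_le_pow _ _ hρ
      nlinarith
    have h5 : s + 1 < 2 ^ l := Nat.lt_pow_succ_log_self (by norm_num) _
    have h6 : k + 1 ≤ 2 ^ l := by omega
    exact_mod_cast h6
  have f2 : ((k : ℝ) + 1) ^ (ρ ^ 4 * k) ≤ 2 ^ (l * (ρ ^ 4 * k)) := by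
    rw [pow_mul 2 l]
    exact pow_le_pow_left₀ (by positivity) hkl _
  have f3 : b ^ M ≤ (1 / 2) ^ (q * M) := by
    rw [pow_mul]
    exact pow_le_pow_left₀ hb0 hb M
  -- the exponent
  have hMr : th * ρ ^ 4 * (k / 21) ≤ M := by
    have h5 : th * (ρ ^ 4 : ℕ) * max 1 ((w : ℝ) / (2 * ρ ^ 3)) ≤ M := Nat.le_ceil _
    refine le_trans ?_ h5
    push_cast
    refine mul_le_mul_of_nonneg_left (le_trans ?_ (le_max_right _ _)) (by positivity)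
    rw [le_div_iff₀ (by positivity)]
    have h6 : s ≤ 5 * (2 * w + 2) + 3 := by omega
    have h6' : (s : ℝ) ≤ 5 * (2 * w + 2) + 3 := by exact_mod_cast h6
    have h7 : (300 : ℝ) ≤ s := by
      have : 300 ≤ s := by omega
      exact_mod_cast this
    nlinarith
  have hqr : (s : ℝ) / 6 ≤ q := by
    have h6 : s ≤ 6 * q := by omega
    have h6' : (s : ℝ) ≤ 6 * q := by exact_mod_cast h6
    linarith
  have hexp : (s + 2) * k + l * (ρ ^ 4 * k) + (k + 4) ≤ q * M := by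
    have h6 : ((s : ℝ) + 2) * k + l * (ρ ^ 4 * k) + (k + 4) ≤ q * M := by
      have h7 : (s : ℝ) / 6 * (th * ρ ^ 4 * (k / 21)) ≤ q * M :=
        mul_le_mul hqr hMr (by positivity) (by positivity)
      refine le_trans ?_ h7
      have h8 : (l : ℝ) * (ρ ^ 4 * k) ≤ s * (th / 252) * (ρ ^ 4 * k) :=
        mul_le_mul_of_nonneg_right hlog (by positivity)
      have hs1' : (1 : ℝ) ≤ s := by exact_mod_cast hs1
      have h9 : ((s : ℝ) + 2) * k + (k + 4) ≤ 8 * (s * k) := by nlinarith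
      have h10 : 8 * ((s : ℝ) * k) ≤ (th * ρ ^ 4 / 252) * (s * k) := by
        refine mul_le_mul_of_nonneg_right ?_ (by positivity)
        linarith
      have h11 : (s : ℝ) / 6 * (th * ρ ^ 4 * (k / 21)) = (th * ρ ^ 4 / 252) * (s * k) + s * (th / 252) * (ρ ^ 4 * k) := by
        ring
      rw [h11]
      linarith
    exact_mod_cast h6
  calc (2 ^ (s + 1) + 1 : ℝ) ^ k * ((k : ℝ) + 1) ^ (ρ ^ 4 * k) * b ^ M
      ≤ 2 ^ ((s + 2) * k) * 2 ^ (l * (ρ ^ 4 * k)) * (1 / 2) ^ (q * M) := by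
        refine mul_le_mul (mul_le_mul f1 f2 (by positivity) (by positivity)) f3 (by positivity) (by positivity)
    _ = 2 ^ ((s + 2) * k + l * (ρ ^ 4 * k)) * (1 / 2) ^ (q * M) := by rw [pow_add]
    _ ≤ 2 ^ ((s + 2) * k + l * (ρ ^ 4 * k)) * (1 / 2) ^ ((s + 2) * k + l * (ρ ^ 4 * k) + (k + 4)) := by
        refine mul_le_mul_of_nonneg_left ?_ (by positivity)
        exact pow_le_pow_of_le_one (by norm_num) (by norm_num) hexp
    _ = (1 / 2) ^ (k + 4) := by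
        rw [pow_add (1 / 2 : ℝ) ((s + 2) * k + l * (ρ ^ 4 * k)) (k + 4), ← mul_assoc, ← mul_pow]
        norm_num

theorem bNUM : bNUM_stmt := by
  intro w0 th hth
  obtain ⟨A, hA⟩ := exists_nat_gt (2016 / th + 10 * (1 / (th / 252)) ^ 2)
  obtain ⟨X, hX⟩ : ∃ X : ℕ, X = 30 * (3 * w0 * 2 ^ w0) + 300 := ⟨_, rfl⟩
  have hX3 : 300 ≤ X := by
    rw [hX]
    exact Nat.le_add_left _ _
  refine ⟨A + X, ?_⟩
  intro ρ hρ t k w hk hks hbu
  have hρ1 : 300 ≤ ρ := by omega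
  have hρA : A ≤ ρ := by omega
  have hρW : 30 * (3 * w0 * 2 ^ w0) + 300 ≤ ρ := by
    rw [← hX]
    exact le_trans (Nat.le_add_left _ _) hρ
  have hρA' : (A : ℝ) ≤ ρ := by exact_mod_cast hρA
  have hρ1' : (300 : ℝ) ≤ ρ := by exact_mod_cast hρ1
  have hρs : ρ ≤ sj (ρ ^ 2) (t + 1) := by
    refine le_trans ?_ hks
    have h1 : ρ ≤ ρ ^ 3 := Nat.le_self_pow (by norm_num) ρ
    exact le_trans h1 (Nat.le_mul_of_pos_left _ (by omega))
  have ht : t ≠ 0 := by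
    rintro rfl
    have h1 : sj (ρ ^ 2) (0 + 1) = ρ ^ 2 + ρ ^ 2 / 4 := rfl
    rw [h1] at hks
    have h2 : 2 * ρ ^ 2 ≤ ρ ^ 3 := by
      rw [pow_succ ρ 2, mul_comm (ρ ^ 2)]
      exact Nat.mul_le_mul_right _ (by omega)
    have h3 : ρ ^ 3 ≤ k * ρ ^ 3 := Nat.le_mul_of_pos_left _ (by omega)
    have h4 : 0 < ρ ^ 2 := by positivity
    omega
  have hbu' : sj (ρ ^ 2) t / 4 ≤ 2 * w + 2 := by
    unfold bu at hbu
    rwa [if_neg ht] at hbu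
  refine bNUM_core th (3 * w0 * 2 ^ w0) ρ (sj (ρ ^ 2) t) (sj (ρ ^ 2) (t + 1)) k w hth rfl hk hks hbu' ?_ ?_
    (le_trans hρW hρs) (by omega)
  · have h1 : 2016 / th ≤ ρ := by
      have : (0 : ℝ) ≤ 10 * (1 / (th / 252)) ^ 2 := by positivity
      linarith
    rw [div_le_iff₀ hth] at h1
    have h2 : (ρ : ℝ) ≤ ρ ^ 4 := le_self_pow₀ (by linarith) (by norm_num)
    nlinarith
  · have h1 : (0 : ℝ) ≤ 2016 / th := by positivity
    have h2 : (ρ : ℝ) ≤ (sj (ρ ^ 2) (t + 1) : ℕ) := by exact_mod_cast hρs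
    linarith

end Pool.Agent.helper90.DH
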